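import Pool.Agent.H51.MF.Stmts

set_option autoImplicit false

namespace Pool.Agent.H51.MF

open Module

/-- the rational functional of an integral vector -/
noncomputable def LIN1_fun {n : ℕ} (θ : Fin n → ℤ) : (Fin n → ℚ) →ₗ[ℚ] ℚ :=
  ∑ i, (θ i : ℚ) • LinearMap.proj i

theorem LIN1_fun_cast {n : ℕ} (θ w : Fin n → ℤ) :
    LIN1_fun θ (fun i => (w i : ℚ)) = ((θ ⬝ᵥ w : ℤ) : ℚ) := by
  unfold LIN1_fun dotProduct
  simp

theorem LIN1_span_le {n : ℕ} {D T : Set (Fin n → ℤ)} (h : ∀ w ∈ T, w ∈ D ∨ -w ∈ D) :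
    Submodule.span ℚ ((fun (w : Fin n → ℤ) (i : Fin n) => (w i : ℚ)) '' T) ≤
      Submodule.span ℚ ((fun (w : Fin n → ℤ) (i : Fin n) => (w i : ℚ)) '' D) := by
  rw [Submodule.span_le]
  rintro _ ⟨w, hw, rfl⟩
  rcases h w hw with h1 | h1
  · exact Submodule.subset_span ⟨w, h1, rfl⟩
  · have h2 : (fun i : Fin n => (((-w) i : ℤ) : ℚ)) ∈
        Submodule.span ℚ ((fun (w : Fin n → ℤ) (i : Fin n) => (w i : ℚ)) '' D) :=
      Submodule.subset_span ⟨-w, h1, rfl⟩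
    have h3 := Submodule.neg_mem _ h2
    have h4 : (fun i : Fin n => (w i : ℚ)) = -(fun i : Fin n => (((-w) i : ℤ) : ℚ)) := by
      funext i; simp
    simp only [SetLike.mem_coe]
    rw [h4]
    exact h3

theorem LIN1_ker {n : ℕ} {T : Set (Fin n → ℤ)} {θ : Fin n → ℤ} (h : ∀ w ∈ T, θ ⬝ᵥ w = 0) :
    Submodule.span ℚ ((fun (w : Fin n → ℤ) (i : Fin n) => (w i : ℚ)) '' T) ≤
      LinearMap.ker (LIN1_fun θ) := by
  rw [Submodule.span_le]
  rintro _ ⟨w, hw, rfl⟩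
  simp only [SetLike.mem_coe, LinearMap.mem_ker]
  rw [LIN1_fun_cast, h w hw, Int.cast_zero]

theorem s_LIN1 : S_LIN1 := by
  intro n D T θ hT hD
  unfold rk
  apply Submodule.finrank_lt_finrank_of_lt
  refine lt_of_le_of_ne (LIN1_span_le fun w hw => (hT w hw).1) ?_
  intro heq
  obtain ⟨w, hw, hne⟩ := hD
  have h1 : (fun i : Fin n => (w i : ℚ)) ∈
      Submodule.span ℚ ((fun (w : Fin n → ℤ) (i : Fin n) => (w i : ℚ)) '' D) :=
    Submodule.subset_span ⟨w, hw, rfl⟩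
  rw [← heq] at h1
  have h2 := LIN1_ker (fun w hw => (hT w hw).2) h1
  rw [LinearMap.mem_ker, LIN1_fun_cast] at h2
  exact hne (by exact_mod_cast h2)

end Pool.Agent.H51.MF
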