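import Pool.Agent.H51.MF.Stmts

set_option autoImplicit false

namespace Pool.Agent.H51.MF

open Module

/-- the rational functional of an integral vector -/
noncomputable def LIN2_fun {n : ℕ} (θ : Fin n → ℤ) : (Fin n → ℚ) →ₗ[ℚ] ℚ :=
  ∑ i, (θ i : ℚ) • LinearMap.proj i

theorem LIN2_fun_cast {n : ℕ} (θ w : Fin n → ℤ) :
    LIN2_fun θ (fun i => (w i : ℚ)) = ((θ ⬝ᵥ w : ℤ) : ℚ) := by
  unfold LIN2_fun dotProduct
  simp

/-- clearing denominators -/
theorem LIN2_clear {n : ℕ} (f : (Fin n → ℚ) →ₗ[ℚ] ℚ) :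
    ∃ (N : ℕ) (η : Fin n → ℤ), 0 < N ∧ LIN2_fun η = (N : ℚ) • f := by
  let e : Fin n → (Fin n → ℚ) := fun i => Pi.single i 1
  let N : ℕ := ∏ i, (f (e i)).den
  have hN : 0 < N := Finset.prod_pos fun i _ => (f (e i)).den_pos
  have hdvd : ∀ i, (f (e i)).den ∣ N := fun i => Finset.dvd_prod_of_mem _ (Finset.mem_univ i)
  refine ⟨N, fun i => (f (e i)).num * ((N / (f (e i)).den : ℕ) : ℤ), hN, ?_⟩
  have key : ∀ i, (((f (e i)).num * ((N / (f (e i)).den : ℕ) : ℤ) : ℤ) : ℚ) =
      (N : ℚ) * f (e i) := by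
    intro i
    obtain ⟨k, hk⟩ := hdvd i
    have hd : ((f (e i)).den : ℚ) ≠ 0 := by exact_mod_cast (f (e i)).den_ne_zero
    have h1 : N / (f (e i)).den = k := by
      rw [hk]; exact Nat.mul_div_cancel_left _ (f (e i)).den_pos
    rw [h1]
    have h2 : (N : ℚ) = ((f (e i)).den : ℚ) * (k : ℚ) := by exact_mod_cast hk
    push_cast
    rw [h2]
    have h3 : ((f (e i)).den : ℚ) * f (e i) = (f (e i)).num := Rat.den_mul_eq_num _
    rw [← h3]
    ring
  apply LinearMap.pi_ext
  intro i x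
  have h5 : (Pi.single i x : Fin n → ℚ) = x • e i := by
    funext j
    by_cases hj : j = i
    · subst hj; simp [e]
    · simp [e, hj]
  rw [h5, map_smul, map_smul]
  congr 1
  rw [LinearMap.smul_apply, smul_eq_mul, ← key i]
  unfold LIN2_fun
  simp only [LinearMap.sum_apply, LinearMap.smul_apply, LinearMap.proj_apply, smul_eq_mul]
  rw [Finset.sum_eq_single i]
  · simp [e]
  · intro j _ hj
    simp [e, hj]
  · simp

theorem s_LIN2 : S_LIN2 := by
  intro n D T θ hD hrk
  unfold rk at hrk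
  set U := Submodule.span ℚ ((fun (w : Fin n → ℤ) (i : Fin n) => (w i : ℚ)) '' T) with hU
  set W := Submodule.span ℚ ((fun (w : Fin n → ℤ) (i : Fin n) => (w i : ℚ)) '' D) with hW
  -- the kernel of θ on W
  have h1 : finrank ℚ W ≤ finrank ℚ (W ⊓ LinearMap.ker (LIN2_fun θ) : Submodule ℚ (Fin n → ℚ)) + 1 := by
    let g : W →ₗ[ℚ] ℚ := (LIN2_fun θ).domRestrict W
    have h2 := LinearMap.finrank_range_add_finrank_ker g
    have h3 : finrank ℚ (LinearMap.range g) ≤ 1 := by
      calc finrank ℚ (LinearMap.range g) ≤ finrank ℚ ℚ := Submodule.finrank_le _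
        _ = 1 := finrank_self ℚ
    have h4 : finrank ℚ (LinearMap.ker g) ≤
        finrank ℚ (W ⊓ LinearMap.ker (LIN2_fun θ) : Submodule ℚ (Fin n → ℚ)) := by
      have h5 : (LinearMap.ker g).map W.subtype ≤ W ⊓ LinearMap.ker (LIN2_fun θ) := by
        rintro _ ⟨y, hy, rfl⟩
        refine ⟨y.2, ?_⟩
        exact hy
      calc finrank ℚ (LinearMap.ker g) = finrank ℚ ((LinearMap.ker g).map W.subtype) :=
            (LinearEquiv.finrank_eq (Submodule.equivMapOfInjective _ W.injective_subtype _))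
        _ ≤ _ := Submodule.finrank_mono h5
    omega
  have h6 : ¬ (W ⊓ LinearMap.ker (LIN2_fun θ) ≤ U) := by
    intro h
    have := Submodule.finrank_mono h
    omega
  obtain ⟨x, hx, hxU⟩ := Set.not_subset.1 h6
  obtain ⟨f, hfx, hfU⟩ := Submodule.exists_le_ker_of_notMem hxU
  obtain ⟨N, η, hN, hη⟩ := LIN2_clear f
  have hN' : (N : ℚ) ≠ 0 := by exact_mod_cast hN.ne'
  refine ⟨η, ?_, ?_⟩
  · intro w hw
    have h7 : (fun i : Fin n => (w i : ℚ)) ∈ U := Submodule.subset_span ⟨w, hw, rfl⟩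
    have h8 := hfU h7
    rw [LinearMap.mem_ker] at h8
    have h9 := LIN2_fun_cast η w
    rw [hη, LinearMap.smul_apply, h8, smul_zero] at h9
    exact_mod_cast h9.symm
  · intro a b hab
    -- the combination vanishes on W
    have h10 : W ≤ LinearMap.ker ((a : ℚ) • LIN2_fun θ + (b : ℚ) • LIN2_fun η) := by
      rw [hW, Submodule.span_le]
      rintro _ ⟨w, hw, rfl⟩
      simp only [SetLike.mem_coe, LinearMap.mem_ker, LinearMap.add_apply, LinearMap.smul_apply,
        smul_eq_mul]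
      rw [LIN2_fun_cast, LIN2_fun_cast]
      have h11 := hab w hw
      rw [add_dotProduct, smul_dotProduct, smul_dotProduct, smul_eq_mul, smul_eq_mul] at h11
      exact_mod_cast h11
    have h12 := h10 hx.1
    have h13 : LIN2_fun θ x = 0 := hx.2
    rw [LinearMap.mem_ker, LinearMap.add_apply, LinearMap.smul_apply, LinearMap.smul_apply, h13,
      hη, LinearMap.smul_apply, smul_zero, zero_add, smul_eq_mul, smul_eq_mul] at h12
    have hb : b = 0 := by
      rcases mul_eq_zero.1 h12 with h | h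
      · exact_mod_cast h
      · exfalso
        rcases mul_eq_zero.1 h with h' | h'
        · exact hN' h'
        · exact hfx h'
    subst hb
    obtain ⟨w, hw, hne⟩ := hD
    have h14 := hab w hw
    rw [zero_smul, add_zero, smul_dotProduct, smul_eq_mul] at h14
    rcases mul_eq_zero.1 h14 with h | h
    · exact ⟨h, rfl⟩
    · exact absurd h hne

end Pool.Agent.H51.MF
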